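import Mathlib
import Pool.Agent.H283R2.DR.GenExists

/-!
# Motions of frameworks at a most generic placement
-/

set_option autoImplicit false
set_option linter.unusedSectionVars false

namespace Pool.Agent.H789R5

open Matrix Finset Pool.Agent.H283R2.DR

variable {V : Type} [Fintype V] {d : ℕ}

/-- the space of infinitesimal motions -/
noncomputable def Mot (G : SimpleGraph V) (p : V → Fin d → ℝ) : Submodule ℝ (V → Fin d → ℝ) :=
  LinearMap.ker (TA.rig G p)

omit [Fintype V] in
theorem mem_mot (G : SimpleGraph V) (p q : V → Fin d → ℝ) : q ∈ Mot G p ↔ IsMotion G p q :=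
  TA.mem_ker_rig G p q

/-- the dimension of the space of infinitesimal motions -/
noncomputable def mo (G : SimpleGraph V) (p : V → Fin d → ℝ) : ℕ := Module.finrank ℝ (Mot G p)

omit [Fintype V] in
theorem mot_anti {G G' : SimpleGraph V} (h : G ≤ G') (p : V → Fin d → ℝ) :
    Mot G' p ≤ Mot G p := by
  intro q hq
  rw [mem_mot] at *
  exact fun u v huv => hq u v (h huv)

theorem mo_anti {G G' : SimpleGraph V} (h : G ≤ G') (p : V → Fin d → ℝ) : mo G' p ≤ mo G p :=
  Submodule.finrank_mono (mot_anti h p)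

theorem finrank_all : Module.finrank ℝ (V → Fin d → ℝ) = d * Fintype.card V := by
  rw [Module.finrank_pi_fintype]
  simp [mul_comm]

theorem mo_le (G : SimpleGraph V) (p : V → Fin d → ℝ) : mo G p ≤ d * Fintype.card V := by
  rw [← finrank_all]
  exact Submodule.finrank_le _

/-- A most generic placement: it has the least motions for all graphs at the same time, and it is
in general position. -/
structure MG (p : V → Fin d → ℝ) : Prop extends Gen p where
  min : ∀ (G : SimpleGraph V) (p' : V → Fin d → ℝ), mo G p ≤ mo G p'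

theorem min_good (G : SimpleGraph V) :
    TA.Good (fun p : V → Fin d → ℝ => ∀ p' : V → Fin d → ℝ, mo G p ≤ mo G p') := by
  intro p0 p1 h0
  refine (TA.rank_good (TA.rig G p0) (TA.rig G (p1 - p0))).subset ?_
  intro s hs
  rw [Set.mem_ofPred_eq] at hs ⊢
  push Not at hs
  obtain ⟨p', hp'⟩ := hs
  rw [← TA.rig_line]
  have e1 := LinearMap.finrank_range_add_finrank_ker (TA.rig G p0)
  have e2 := LinearMap.finrank_range_add_finrank_ker (TA.rig G (p0 + s • (p1 - p0)))
  have h1 := h0 p'
  have h2 : mo G p0 < mo G (p0 + s • (p1 - p0)) := by omega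
  unfold mo Mot at h2
  omega

theorem exists_min (G : SimpleGraph V) : ∃ p : V → Fin d → ℝ, ∀ p' : V → Fin d → ℝ, mo G p ≤ mo G p' := by
  obtain ⟨m, ⟨p, rfl⟩, hm⟩ := (wellFounded_lt (α := ℕ)).has_min
    (Set.range fun p : V → Fin d → ℝ => mo G p) ⟨_, ⟨0, rfl⟩⟩
  exact ⟨p, fun p' => not_lt.1 (hm _ ⟨p', rfl⟩)⟩

open TA in
theorem exists_mg (V : Type) [Fintype V] (d : ℕ) : ∃ p : V → Fin d → ℝ, MG p := by
  classical
  have h := good_family (E := V → Fin d → ℝ)
    (ι := SimpleGraph V ⊕ ((SimpleGraph V × Set V) ⊕ (Σ n : Fin (d + 2), (Fin n → V))))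
    (fun i p => match i with
      | Sum.inl G => ∀ p' : V → Fin d → ℝ, mo G p ≤ mo G p'
      | Sum.inr (Sum.inl a) => (∃ p' : V → Fin d → ℝ, RigidOn a.1 a.2 p') → RigidOn a.1 a.2 p
      | Sum.inr (Sum.inr a) => Function.Injective a.2 → AffineIndependent ℝ (fun i => p (a.2 i)))
      ?_ ?_
  · obtain ⟨p, hp⟩ := h
    refine ⟨p, ⟨⟨?_, ?_⟩, ?_⟩⟩
    · intro H U p' hp'
      exact hp (Sum.inr (Sum.inl (H, U))) ⟨p', hp'⟩
    · intro n x hn hx
      exact hp (Sum.inr (Sum.inr ⟨⟨n, by omega⟩, x⟩)) hx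
    · intro G p'
      exact hp (Sum.inl G) p'
  · rintro (G | ⟨H, U⟩ | ⟨n, x⟩)
    · exact min_good G
    · intro p0 p1 h0
      by_cases hex : ∃ p' : V → Fin d → ℝ, RigidOn H U p'
      · have h1 : InfRigid (H.induce U) (fun x : U => p0 x) :=
          (rigidOn_iff_induce H U p0).1 (h0 hex)
        refine (infRigid_good (H.induce U) (fun x : U => p0 x) (fun x : U => p1 x) h1).subset ?_
        intro s hs
        rw [Set.mem_ofPred_eq] at hs ⊢
        intro hc
        apply hs
        intro _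
        rw [rigidOn_iff_induce]
        exact hc
      · refine Set.finite_empty.subset ?_
        intro s hs
        exact absurd (fun h => absurd h hex) hs
    · intro p0 p1 h0
      by_cases hx : Function.Injective x
      · refine (affine_good x p0 p1 (h0 hx)).subset ?_
        intro s hs
        rw [Set.mem_ofPred_eq] at hs ⊢
        intro hc
        apply hs
        intro _
        exact hc
      · refine Set.finite_empty.subset ?_
        intro s hs
        exact absurd (fun h => absurd h hx) hs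
  · rintro (G | ⟨H, U⟩ | ⟨n, x⟩)
    · exact exists_min G
    · by_cases hex : ∃ p' : V → Fin d → ℝ, RigidOn H U p'
      · obtain ⟨p', hp'⟩ := hex
        exact ⟨p', fun _ => hp'⟩
      · exact ⟨0, fun h => absurd h hex⟩
    · by_cases hx : Function.Injective x
      · obtain ⟨p, hp⟩ := affine_sat (d := d) (by have := n.2; omega) x hx
        exact ⟨p, fun _ => hp⟩
      · exact ⟨0, fun h => absurd h hx⟩

/-! ### General position -/

theorem pos_finset {p : V → Fin d → ℝ} (hp : MG p) {S : Finset V} (hS : S.card ≤ d + 1)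
    (w : V → ℝ) (h0 : ∑ a ∈ S, w a = 0) (h1 : ∑ a ∈ S, w a • p a = 0) : ∀ a ∈ S, w a = 0 := by
  classical
  have h2 := hp.pos S.card (fun i => (S.equivFin.symm i : V)) hS
    (fun i j hij => S.equivFin.symm.injective (Subtype.ext hij))
  rw [affineIndependent_iff] at h2
  have e1 : ∀ {M : Type} [AddCommMonoid M] (f : V → M),
      ∑ i : Fin S.card, f (S.equivFin.symm i : V) = ∑ a ∈ S, f a := by
    intro M _ f
    rw [Equiv.sum_comp S.equivFin.symm (fun a : S => f a), Finset.sum_coe_sort S f]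
  intro a ha
  have h3 := h2 Finset.univ (fun i => w (S.equivFin.symm i : V)) (by rw [e1 w, h0])
    (by rw [e1 (fun a => w a • p a), h1]) (S.equivFin ⟨a, ha⟩) (Finset.mem_univ _)
  simpa using h3

/-! ### Dimension counts -/

section dim

variable {E : Type*} [AddCommGroup E] [Module ℝ E] [FiniteDimensional ℝ E] {T : Type*} [Fintype T]

theorem dim_drop (M M' : Submodule ℝ E) (ψ : T → E →ₗ[ℝ] ℝ)
    (h : ∀ q ∈ M, (∀ t, ψ t q = 0) → q ∈ M') :
    Module.finrank ℝ M ≤ Module.finrank ℝ M' + Fintype.card T := by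
  classical
  let Ψ : M →ₗ[ℝ] (T → ℝ) := LinearMap.pi fun t => (ψ t).comp M.subtype
  have h1 := LinearMap.finrank_range_add_finrank_ker Ψ
  have h2 : Module.finrank ℝ (LinearMap.range Ψ) ≤ Fintype.card T := by
    refine (Submodule.finrank_le _).trans ?_
    rw [Module.finrank_fintype_fun_eq_card]
  have h3 : Module.finrank ℝ (LinearMap.ker Ψ) ≤ Module.finrank ℝ M' := by
    rw [← Submodule.finrank_map_subtype_eq M (LinearMap.ker Ψ)]
    apply Submodule.finrank_mono
    rintro _ ⟨q, hq, rfl⟩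
    refine h _ q.2 fun t => ?_
    exact congrFun (LinearMap.mem_ker.1 hq) t
  omega

theorem dim_gain (M S : Submodule ℝ E) (ψ : T → E →ₗ[ℝ] ℝ) (hSM : S ≤ M)
    (hS : ∀ q ∈ S, ∀ t, ψ t q = 0) (hsurj : ∀ c : T → ℝ, ∃ q ∈ M, ∀ t, ψ t q = c t) :
    Module.finrank ℝ S + Fintype.card T ≤ Module.finrank ℝ M := by
  classical
  let Ψ : M →ₗ[ℝ] (T → ℝ) := LinearMap.pi fun t => (ψ t).comp M.subtype
  have h1 := LinearMap.finrank_range_add_finrank_ker Ψ
  have h2 : Module.finrank ℝ (LinearMap.range Ψ) = Fintype.card T := by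
    have : LinearMap.range Ψ = ⊤ := by
      rw [LinearMap.range_eq_top]
      intro c
      obtain ⟨q, hq, hc⟩ := hsurj c
      exact ⟨⟨q, hq⟩, funext hc⟩
    rw [this, finrank_top, Module.finrank_fintype_fun_eq_card]
  have h3 : Module.finrank ℝ S ≤ Module.finrank ℝ (LinearMap.ker Ψ) := by
    rw [← Submodule.finrank_map_subtype_eq M (LinearMap.ker Ψ)]
    apply Submodule.finrank_mono
    intro q hq
    exact ⟨⟨q, hSM hq⟩, LinearMap.mem_ker.2 (funext fun t => hS q hq t), rfl⟩
  omega

end dim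

/-! ### Edge constraints -/

/-- the length constraint of a pair -/
noncomputable def ef (p : V → Fin d → ℝ) (a b : V) : (V → Fin d → ℝ) →ₗ[ℝ] ℝ where
  toFun q := (p a - p b) ⬝ᵥ (q a - q b)
  map_add' q q' := by
    rw [← dotProduct_add]
    congr 1
    simp only [Pi.add_apply]
    abel
  map_smul' c q := by
    simp only [Pi.smul_apply, RingHom.id_apply, ← smul_sub, dotProduct_smul]

omit [Fintype V] in
theorem ef_apply (p q : V → Fin d → ℝ) (a b : V) :
    ef p a b q = (p a - p b) ⬝ᵥ (q a - q b) := rfl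

omit [Fintype V] in
theorem ef_comm (p : V → Fin d → ℝ) (a b : V) : ef p a b = ef p b a := by
  refine LinearMap.ext fun q => ?_
  rw [ef_apply, ef_apply, ← neg_sub (p a), ← neg_sub (q a), neg_dotProduct_neg]

/-- the length constraint of an unordered pair -/
noncomputable def efs (p : V → Fin d → ℝ) : Sym2 V → ((V → Fin d → ℝ) →ₗ[ℝ] ℝ) :=
  Sym2.lift ⟨ef p, ef_comm p⟩

theorem mo_le_add {G G' : SimpleGraph V} (p : V → Fin d → ℝ) :
    mo G p ≤ mo G' p + (G'.edgeSet \ G.edgeSet).ncard := by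
  classical
  rw [Set.ncard_eq_toFinset_card', ← Fintype.card_coe]
  refine dim_drop (Mot G p) (Mot G' p) (fun t : (G'.edgeSet \ G.edgeSet).toFinset => efs p t) ?_
  intro q hq h
  rw [mem_mot] at *
  intro u v huv
  by_cases h' : G.Adj u v
  · exact hq u v h'
  · exact h ⟨s(u, v), by simp [huv, h']⟩

theorem gain_at (p : V → Fin d → ℝ) (G : SimpleGraph V) (v : V) (hiso : ∀ u, ¬ G.Adj v u)
    (T : Finset V) (hvT : v ∉ T) (hlin : LinearIndependent ℝ (fun z : T => p v - p z))
    (S : Submodule ℝ (V → Fin d → ℝ)) (hS : S ≤ Mot G p)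
    (hS' : ∀ q ∈ S, ∀ z ∈ T, (p v - p z) ⬝ᵥ (q v - q z) = 0) :
    Module.finrank ℝ S + T.card ≤ mo G p := by
  classical
  rw [← Fintype.card_coe]
  refine dim_gain (Mot G p) S (fun z : T => ef p v z) hS (fun q hq z => hS' q hq z z.2) ?_
  intro c
  obtain ⟨g, hg⟩ := LinearMap.exists_extend ((Module.Basis.span hlin).constr ℝ c)
  have hgz : ∀ z : T, g (p v - p z) = c z := by
    intro z
    have h1 := LinearMap.congr_fun hg (Module.Basis.span hlin z)
    rw [LinearMap.comp_apply, Module.Basis.constr_basis] at h1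
    rw [← h1, Submodule.subtype_apply, Module.Basis.span_apply]
  refine ⟨Pi.single v (fun i => g (fun j => if i = j then 1 else 0)), ?_, ?_⟩
  · rw [mem_mot]
    intro a b hab
    have ha : a ≠ v := by rintro rfl; exact hiso _ hab
    have hb : b ≠ v := by rintro rfl; exact hiso _ hab.symm
    rw [Pi.single_eq_of_ne ha, Pi.single_eq_of_ne hb]
    simp
  · intro z
    have hz : (z : V) ≠ v := fun h => hvT (h ▸ z.2)
    rw [ef_apply, Pi.single_eq_same, Pi.single_eq_of_ne hz, sub_zero, ← hgz z,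
      LinearMap.pi_apply_eq_sum_univ g]
    rfl

end Pool.Agent.H789R5
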