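import Mathlib
import Pool.Agent.H789R5.RF.Mo

/-!
# The extension lemmas and the complete graph with `d + 2` vertices
-/

set_option autoImplicit false
set_option linter.unusedSectionVars false

namespace Pool.Agent.H789R5

open Matrix Finset Pool.Agent.H283R2.DR

variable {V : Type} [Fintype V] {d : ℕ}

/-! ### Extensions -/

theorem lin_of_pos {p : V → Fin d → ℝ} (hp : MG p) {v : V} {T : Finset V} (hvT : v ∉ T)
    (hT : T.card ≤ d) : LinearIndependent ℝ (fun z : T => p v - p z) := by
  classical
  rw [Fintype.linearIndependent_iff]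
  intro c hc z
  have hc' : ∑ z ∈ T, (fun a => if h : a ∈ T then c ⟨a, h⟩ else 0) z • (p v - p z) = 0 := by
    rw [← Finset.sum_coe_sort, ← hc]
    refine Finset.sum_congr rfl fun z _ => ?_
    simp
  set C : V → ℝ := fun a => if h : a ∈ T then c ⟨a, h⟩ else 0 with hC
  have hav : ∀ a ∈ T, ¬ a = v := by
    rintro a ha rfl
    exact hvT ha
  have key := pos_finset hp (S := insert v T) (by rw [card_insert_of_notMem hvT]; omega)
    (fun a => if a = v then ∑ z ∈ T, C z else - C a) ?_ ?_
  · have h1 := key z (mem_insert_of_mem z.2)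
    have hz : (z : V) ≠ v := fun h => hvT (h ▸ z.2)
    rw [if_neg hz, neg_eq_zero, hC] at h1
    simpa using h1
  · rw [sum_insert hvT, if_pos rfl]
    rw [sum_congr rfl (g := fun a => - C a) (fun a ha => if_neg (hav a ha)), sum_neg_distrib]
    ring
  · rw [sum_insert hvT, if_pos rfl]
    rw [sum_congr rfl (g := fun a => - (C a • p a)) (fun a ha => by
      rw [if_neg (hav a ha), neg_smul]), sum_neg_distrib]
    simp only [smul_sub, sum_sub_distrib] at hc'
    rw [sum_smul]
    rw [← sub_eq_add_neg]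
    exact hc'

theorem del_isolated (G : SimpleGraph V) (v u : V) : ¬ (G.deleteIncidenceSet v).Adj v u := by
  rw [SimpleGraph.deleteIncidenceSet_adj]
  tauto

/-- a vertex with at most `d` edges to `T` -/
theorem ext0 {p : V → Fin d → ℝ} (hp : MG p) (G : SimpleGraph V) (v : V) (T : Finset V)
    (hT : T.card ≤ d) (hTN : ∀ z ∈ T, G.Adj v z) :
    mo G p + T.card ≤ mo (G.deleteIncidenceSet v) p := by
  have hvT : v ∉ T := fun h => (hTN v h).ne rfl
  refine gain_at p _ v (del_isolated G v) T hvT (lin_of_pos hp hvT hT) (Mot G p)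
    (mot_anti (G.deleteIncidenceSet_le v) p) ?_
  intro q hq z hz
  exact (mem_mot G p q).1 hq v z (hTN z hz)

/-- a vertex with `d + 1` neighbours -/
theorem ext1 {p : V → Fin d → ℝ} (hp : MG p) (G : SimpleGraph V) (v : V) (N : Finset V)
    (hN : N.card = d + 1) (hNG : ∀ z ∈ N, G.Adj v z) {x y : V} (hx : x ∈ N) (hy : y ∈ N)
    (hxy : x ≠ y) :
    mo G p + d ≤ mo (G.deleteIncidenceSet v ⊔ SimpleGraph.edge x y) p := by
  classical
  have hvN : v ∉ N := fun h => (hNG v h).ne rfl
  have hvx : v ≠ x := fun h => hvN (h ▸ hx)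
  have hvy : v ≠ y := fun h => hvN (h ▸ hy)
  set G0 := G.deleteIncidenceSet v ⊔ SimpleGraph.edge x y with hG0
  have hiso : ∀ u, ¬ G0.Adj v u := by
    intro u h
    rw [hG0, SimpleGraph.sup_adj] at h
    rcases h with h | h
    · exact del_isolated G v u h
    · rw [SimpleGraph.edge_adj] at h
      rcases h.1 with h1 | h1
      · exact hvx h1.1
      · exact hvy h1.1
  set p' : V → Fin d → ℝ := Function.update p v ((1 / 2 : ℝ) • (p x + p y)) with hp'
  have hpv : p' v = (1 / 2 : ℝ) • (p x + p y) := Function.update_self _ _ _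
  have hpne : ∀ a, a ≠ v → p' a = p a := fun a ha => Function.update_of_ne ha _ _
  have hmot : Mot G0 p' = Mot G0 p := by
    ext q
    rw [mem_mot, mem_mot]
    have hh : ∀ a b, G0.Adj a b → p' a = p a ∧ p' b = p b := by
      intro a b hab
      refine ⟨hpne a ?_, hpne b ?_⟩
      · rintro rfl
        exact hiso _ hab
      · rintro rfl
        exact hiso _ hab.symm
    constructor
    · intro h a b hab
      have := h a b hab
      rwa [(hh a b hab).1, (hh a b hab).2] at this
    · intro h a b hab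
      rw [(hh a b hab).1, (hh a b hab).2]
      exact h a b hab
  have hmo : mo G0 p' = mo G0 p := by unfold mo; rw [hmot]
  have hTc : (N.erase y).card = d := by rw [card_erase_of_mem hy, hN]; rfl
  have hxT : x ∈ N.erase y := mem_erase.2 ⟨hxy, hx⟩
  have hvT : v ∉ N.erase y := fun h => hvN (mem_of_mem_erase h)
  have hlin : LinearIndependent ℝ (fun z : (N.erase y : Finset V) => p' v - p' z) := by
    rw [Fintype.linearIndependent_iff]
    intro c hc z
    set C : V → ℝ := fun a => if h : a ∈ N.erase y then c ⟨a, h⟩ else 0 with hC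
    have hc' : ∑ z ∈ N.erase y, C z • (p' v - p z) = 0 := by
      rw [← Finset.sum_coe_sort, ← hc]
      refine Finset.sum_congr rfl fun z _ => ?_
      rw [hpne z (fun h => hvT (h ▸ z.2))]
      simp only [hC, z.2, dif_pos, Subtype.coe_eta]
    set s : ℝ := ∑ z ∈ N.erase y, C z with hs
    have hsum : s • p' v = ∑ z ∈ N.erase y, C z • p z := by
      simp only [smul_sub, sum_sub_distrib, ← sum_smul] at hc'
      exact sub_eq_zero.1 hc'
    have key := pos_finset hp (S := N) (by omega)
      (fun a => if a = y then s / 2 else if a = x then s / 2 - C x else - C a) ?_ ?_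
    · have hsz : s = 0 := by
        have := key y hy
        rw [if_pos rfl] at this
        linarith
      have h1 := key z (mem_of_mem_erase z.2)
      rw [if_neg (mem_erase.1 z.2).1] at h1
      have h2 : C z = 0 := by
        by_cases hzx : (z : V) = x
        · rw [if_pos hzx] at h1
          rw [hzx]
          linarith
        · rw [if_neg hzx] at h1
          linarith
      rw [hC] at h2
      simpa using h2
    · rw [← Finset.add_sum_erase N _ hy, if_pos rfl, ← Finset.add_sum_erase _ _ hxT,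
        if_neg hxy, if_pos rfl]
      rw [sum_congr rfl (g := fun a => - C a) (fun a ha => by
        rw [if_neg (mem_erase.1 (mem_of_mem_erase ha)).1, if_neg (mem_erase.1 ha).1]),
        sum_neg_distrib]
      have h3 : s = C x + ∑ a ∈ (N.erase y).erase x, C a := by
        rw [hs, ← Finset.add_sum_erase _ _ hxT]
      linarith
    · rw [← Finset.add_sum_erase N _ hy, if_pos rfl, ← Finset.add_sum_erase _ _ hxT,
        if_neg hxy, if_pos rfl]
      rw [sum_congr rfl (g := fun a => - (C a • p a)) (fun a ha => by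
        rw [if_neg (mem_erase.1 (mem_of_mem_erase ha)).1, if_neg (mem_erase.1 ha).1, neg_smul]),
        sum_neg_distrib]
      rw [hpv, ← Finset.add_sum_erase _ _ hxT] at hsum
      have h4 : ∑ a ∈ (N.erase y).erase x, C a • p a =
          s • ((1 / 2 : ℝ) • (p x + p y)) - C x • p x := by
        rw [hsum]
        abel
      rw [h4]
      funext i
      simp only [Pi.add_apply, Pi.smul_apply, Pi.neg_apply, Pi.sub_apply, smul_eq_mul,
        Pi.zero_apply]
      ring
  have hS : Mot G p' ≤ Mot G0 p' := by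
    intro q hq
    rw [mem_mot] at *
    intro a b hab
    rw [hG0, SimpleGraph.sup_adj] at hab
    rcases hab with hab | hab
    · exact hq a b (G.deleteIncidenceSet_le v hab)
    · have hvx' := hq v x (hNG x hx)
      have hvy' := hq v y (hNG y hy)
      rw [hpv, hpne x hvx.symm] at hvx'
      rw [hpv, hpne y hvy.symm] at hvy'
      have key : (p x - p y) ⬝ᵥ (q x - q y) = 0 := by
        have e1 : (1 / 2 : ℝ) • (p x + p y) - p x = (1 / 2 : ℝ) • (p y - p x) := by
          funext i
          simp only [Pi.add_apply, Pi.smul_apply, Pi.sub_apply, smul_eq_mul]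
          ring
        have e2 : (1 / 2 : ℝ) • (p x + p y) - p y = (- (1 / 2 : ℝ)) • (p y - p x) := by
          funext i
          simp only [Pi.add_apply, Pi.smul_apply, Pi.sub_apply, smul_eq_mul]
          ring
        rw [e1, smul_dotProduct, dotProduct_sub, smul_eq_mul] at hvx'
        rw [e2, smul_dotProduct, dotProduct_sub, smul_eq_mul] at hvy'
        have e3 : p x - p y = - (p y - p x) := by abel
        rw [e3, neg_dotProduct, dotProduct_sub]
        linarith
      rw [SimpleGraph.edge_adj] at hab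
      rcases hab.1 with ⟨rfl, rfl⟩ | ⟨rfl, rfl⟩
      · rw [hpne a hvx.symm, hpne b hvy.symm]
        exact key
      · rw [hpne a hvy.symm, hpne b hvx.symm, ← neg_sub (p b), ← neg_sub (q b),
          neg_dotProduct_neg]
        exact key
  have h1 := gain_at p' G0 v hiso (N.erase y) hvT hlin (Mot G p') hS (fun q hq z hz =>
    (mem_mot G p' q).1 hq v z (hNG z (mem_of_mem_erase hz)))
  have h2 := hp.min G p'
  rw [hmo, hTc] at h1
  exact (Nat.add_le_add_right h2 d).trans h1

/-! ### The complete graph with `d + 2` vertices -/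

theorem circuit {p : V → Fin d → ℝ} (hp : MG p) (G : SimpleGraph V) (A : Finset V)
    (hA : A.card = d + 2) {x y : V} (hx : x ∈ A) (hy : y ∈ A)
    (hG : ∀ a ∈ A, ∀ b ∈ A, a ≠ b → ¬ (a = x ∧ b = y) → ¬ (a = y ∧ b = x) → G.Adj a b)
    {q : V → Fin d → ℝ} (hq : IsMotion G p q) : (p x - p y) ⬝ᵥ (q x - q y) = 0 := by
  classical
  by_cases hxy : x = y
  · subst hxy
    simp
  -- an affine dependency
  have hdep : ¬ LinearIndependent ℝ (fun a : A => ((p a, 1) : (Fin d → ℝ) × ℝ)) := by
    intro h
    have := h.fintype_card_le_finrank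
    simp [hA] at this
  rw [Fintype.not_linearIndependent_iff] at hdep
  obtain ⟨g, hg, a0, ha0⟩ := hdep
  set l : V → ℝ := fun a => if h : a ∈ A then g ⟨a, h⟩ else 0 with hl
  have hg' : ∑ a ∈ A, l a • ((p a, 1) : (Fin d → ℝ) × ℝ) = 0 := by
    rw [← Finset.sum_coe_sort, ← hg]
    refine Finset.sum_congr rfl fun z _ => ?_
    simp [hl]
  have l0 : ∑ a ∈ A, l a = 0 := by
    have := congrArg Prod.snd hg'
    rw [Prod.snd_sum] at this
    simpa using this
  have l1 : ∑ a ∈ A, l a • p a = 0 := by
    have := congrArg Prod.fst hg'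
    rw [Prod.fst_sum] at this
    simpa using this
  have hla0 : l a0 ≠ 0 := by
    simp only [hl, a0.2, dif_pos]
    exact ha0
  have hne : ∀ z ∈ A, l z ≠ 0 := by
    intro z hz h0
    have h1 := pos_finset hp (S := A.erase z) (by rw [card_erase_of_mem hz]; omega) l
      (by rw [← Finset.add_sum_erase A _ hz, h0, zero_add] at l0; exact l0)
      (by rw [← Finset.add_sum_erase A _ hz, h0, zero_smul, zero_add] at l1; exact l1)
    apply hla0
    by_cases h : (a0 : V) = z
    · rw [h]; exact h0
    · exact h1 a0 (mem_erase.2 ⟨h, a0.2⟩)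
  have hzero : ∑ b ∈ A, l b * ∑ a ∈ A, l a * ((p a - p b) ⬝ᵥ (q a - q b)) = 0 := by
    set Q : Fin d → ℝ := ∑ a ∈ A, l a • q a with hQ
    set C : ℝ := ∑ a ∈ A, l a * (p a ⬝ᵥ q a) with hC
    have hin : ∀ b, ∑ a ∈ A, l a * ((p a - p b) ⬝ᵥ (q a - q b)) = C - p b ⬝ᵥ Q := by
      intro b
      have e1 : ∀ a, l a * ((p a - p b) ⬝ᵥ (q a - q b)) =
          l a * (p a ⬝ᵥ q a) - (l a • p a) ⬝ᵥ q b - p b ⬝ᵥ (l a • q a) + l a * (p b ⬝ᵥ q b) := by
        intro a
        rw [sub_dotProduct, dotProduct_sub, dotProduct_sub, smul_dotProduct, dotProduct_smul]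
        simp only [smul_eq_mul]
        ring
      rw [sum_congr rfl fun a _ => e1 a, sum_add_distrib, sum_sub_distrib, sum_sub_distrib,
        ← sum_dotProduct, ← dotProduct_sum, ← sum_mul, l0, l1, zero_dotProduct]
      ring
    have e2 : ∀ b, l b * ∑ a ∈ A, l a * ((p a - p b) ⬝ᵥ (q a - q b)) =
        l b * C - (l b • p b) ⬝ᵥ Q := by
      intro b
      rw [hin b, smul_dotProduct, smul_eq_mul]
      ring
    rw [sum_congr rfl fun b _ => e2 b, sum_sub_distrib, ← sum_mul, ← sum_dotProduct, l0, l1,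
      zero_dotProduct]
    ring
  have hterm : ∀ b ∈ A, ∀ a ∈ A, ¬ (a = x ∧ b = y) → ¬ (a = y ∧ b = x) →
      (p a - p b) ⬝ᵥ (q a - q b) = 0 := by
    intro b hb a ha h1 h2
    by_cases hab : a = b
    · subst hab
      simp
    · exact hq a b (hG a ha b hb hab h1 h2)
  have hy' : ∑ a ∈ A, l a * ((p a - p y) ⬝ᵥ (q a - q y)) =
      l x * ((p x - p y) ⬝ᵥ (q x - q y)) := by
    refine Finset.sum_eq_single x (fun a ha hax => ?_) (fun h => absurd hx h)
    rw [hterm y hy a ha (fun h => hax h.1) (fun h => hxy h.2.symm), mul_zero]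
  have hx' : ∑ a ∈ A, l a * ((p a - p x) ⬝ᵥ (q a - q x)) =
      l y * ((p x - p y) ⬝ᵥ (q x - q y)) := by
    rw [Finset.sum_eq_single y (fun a ha hay => ?_) (fun h => absurd hy h)]
    · rw [← neg_sub (p x), ← neg_sub (q x), neg_dotProduct_neg]
    · rw [hterm x hx a ha (fun h => hxy h.2) (fun h => hay h.1), mul_zero]
  have hb' : ∀ b ∈ A, b ≠ x → b ≠ y → ∑ a ∈ A, l a * ((p a - p b) ⬝ᵥ (q a - q b)) = 0 := by
    intro b hb hbx hby
    refine Finset.sum_eq_zero fun a ha => ?_
    rw [hterm b hb a ha (fun h => hby h.2) (fun h => hbx h.2), mul_zero]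
  have hfin : l x * (l y * ((p x - p y) ⬝ᵥ (q x - q y))) +
      l y * (l x * ((p x - p y) ⬝ᵥ (q x - q y))) = 0 := by
    rw [← hzero, ← Finset.add_sum_erase A _ hx,
      ← Finset.add_sum_erase (A.erase x) _ (mem_erase.2 ⟨fun h => hxy h.symm, hy⟩), hx', hy',
      Finset.sum_eq_zero (s := (A.erase x).erase y) (fun b hb => ?_)]
    · ring
    · rw [hb' b (mem_of_mem_erase (mem_of_mem_erase hb))
        (mem_erase.1 (mem_of_mem_erase hb)).1 (mem_erase.1 hb).1, mul_zero]
  have h3 : l x * l y * (2 * ((p x - p y) ⬝ᵥ (q x - q y))) = 0 := by linarith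
  rcases mul_eq_zero.1 h3 with h4 | h4
  · exact absurd h4 (mul_ne_zero (hne x hx) (hne y hy))
  · linarith

end Pool.Agent.H789R5
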