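import Mathlib
import Pool.Agent.H789R5.RF.Ext

/-!
# The rank formula
-/

set_option autoImplicit false
set_option linter.unusedSectionVars false

namespace Pool.Agent.H789R5

open Matrix Finset Pool.Agent.H283R2.DR

variable {V : Type}

/-- The graph `G` together with all edges inside the members of the list `L`. -/
def cover (G : SimpleGraph V) (L : List (Finset V)) : SimpleGraph V where
  Adj x y := x ≠ y ∧ (G.Adj x y ∨ ∃ A ∈ L, x ∈ A ∧ y ∈ A)
  symm := ⟨fun _ _ h => ⟨h.1.symm, h.2.imp (fun h => h.symm) fun ⟨A, hA, hx, hy⟩ => ⟨A, hA, hy, hx⟩⟩⟩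
  loopless := ⟨fun _ h => h.1 rfl⟩

/-- A sequence of sets with `m` elements, the last one first in the list, such that each of them
contains a pair that is contained in none of the sets before it. -/
def Proper (m : ℕ) : List (Finset V) → Prop
  | [] => True
  | A :: L => Proper m L ∧ A.card = m ∧ ∃ x ∈ A, ∃ y ∈ A, x ≠ y ∧ ∀ B ∈ L, ¬ (x ∈ B ∧ y ∈ B)

/-- The neighbours of `v` in `H` which come after `v` in the order given by `π`. -/
def later (H : SimpleGraph V) (π : V → ℕ) (v : V) : Set V := {u | H.Adj v u ∧ π v < π u}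

/-- `G` is contained in a graph `H` on the same vertices with the following property: the vertices
can be ordered so that each vertex has at most `d + 1` later neighbours in `H`, which are pairwise
adjacent in `H` if there are exactly `d + 1` of them. -/
def Elim (d : ℕ) (G : SimpleGraph V) : Prop :=
  ∃ (H : SimpleGraph V) (π : V → ℕ), G ≤ H ∧ Function.Injective π ∧
    ∀ v, (later H π v).ncard ≤ d ∨ ((later H π v).ncard = d + 1 ∧ H.IsClique (later H π v))

variable [Fintype V] {d : ℕ}

theorem cover_nil (G : SimpleGraph V) : cover G [] = G := by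
  ext x y
  constructor
  · rintro ⟨_, h | ⟨A, hA, _⟩⟩
    · exact h
    · simp at hA
  · exact fun h => ⟨h.ne, Or.inl h⟩

theorem ncard_del (G : SimpleGraph V) (v : V) :
    G.edgeSet.ncard = (G.deleteIncidenceSet v).edgeSet.ncard + (G.neighborSet v).ncard := by
  classical
  have h1 : (G.incidenceSet v).ncard = (G.neighborSet v).ncard := by
    have := G.card_incidenceSet_eq_degree v
    rw [← G.card_neighborSet_eq_degree v, ← Nat.card_eq_fintype_card,
      ← Nat.card_eq_fintype_card] at this
    exact this
  rw [SimpleGraph.edgeSet_deleteIncidenceSet, ← h1,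
    Set.ncard_sdiff_add_ncard_of_subset (G.incidenceSet_subset v) (Set.toFinite _)]

theorem del_cover (G : SimpleGraph V) {L : List (Finset V)} {v : V} (hL : ∀ A ∈ L, v ∉ A) :
    (cover G L).deleteIncidenceSet v = cover (G.deleteIncidenceSet v) L := by
  ext x y
  rw [SimpleGraph.deleteIncidenceSet_adj]
  constructor
  · rintro ⟨⟨hne, h⟩, hx, hy⟩
    refine ⟨hne, h.imp (fun h => ?_) id⟩
    rw [SimpleGraph.deleteIncidenceSet_adj]
    exact ⟨h, hx, hy⟩
  · rintro ⟨hne, h⟩
    rcases h with h | ⟨A, hA, hx, hy⟩
    · rw [SimpleGraph.deleteIncidenceSet_adj] at h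
      exact ⟨⟨hne, Or.inl h.1⟩, h.2⟩
    · refine ⟨⟨hne, Or.inr ⟨A, hA, hx, hy⟩⟩, ?_, ?_⟩
      · rintro rfl
        exact hL A hA hx
      · rintro rfl
        exact hL A hA hy

theorem nbr_cover (G : SimpleGraph V) {L : List (Finset V)} {v : V} (hL : ∀ A ∈ L, v ∉ A) :
    (cover G L).neighborSet v = G.neighborSet v := by
  ext x
  constructor
  · rintro ⟨hne, h | ⟨A, hA, hx, hy⟩⟩
    · exact h
    · exact absurd hx (hL A hA)
  · exact fun h => ⟨h.ne, Or.inl h⟩

/-! ### The upper bound -/

theorem cover_bot_bound {p : V → Fin d → ℝ} (hp : MG p) : ∀ L : List (Finset V),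
    Proper (d + 2) L → d * Fintype.card V + L.length ≤
      (cover ⊥ L).edgeSet.ncard + mo (cover ⊥ L) p := by
  classical
  intro L
  induction L with
  | nil =>
    intro _
    rw [cover_nil]
    have h1 : mo (⊥ : SimpleGraph V) p = d * Fintype.card V := by
      have h2 : Mot (⊥ : SimpleGraph V) p = ⊤ := by
        rw [eq_top_iff]
        intro q _
        rw [mem_mot]
        intro u v huv
        exact absurd huv (by simp)
      unfold mo
      rw [h2, finrank_top, finrank_all]
    rw [h1]
    simp
  | cons A L ih =>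
    rintro ⟨hL, hA, x, hx, y, hy, hxy, hnew⟩
    have ih' := ih hL
    set K := cover (⊥ : SimpleGraph V) (A :: L) with hK
    set K' := cover (⊥ : SimpleGraph V) L with hK'
    have hadj : K.Adj x y := ⟨hxy, Or.inr ⟨A, by simp, hx, hy⟩⟩
    set K0 := K.deleteEdges {s(x, y)} with hK0
    have hle : K' ≤ K0 := by
      intro a b hab
      rw [hK0, SimpleGraph.deleteEdges_adj]
      obtain ⟨hne, h | ⟨B, hB, ha, hb⟩⟩ := hab
      · exact absurd h (by simp)
      · refine ⟨⟨hne, Or.inr ⟨B, List.mem_cons_of_mem _ hB, ha, hb⟩⟩, ?_⟩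
        rw [Set.mem_singleton_iff, Sym2.eq_iff]
        rintro (⟨rfl, rfl⟩ | ⟨rfl, rfl⟩)
        · exact hnew B hB ⟨ha, hb⟩
        · exact hnew B hB ⟨hb, ha⟩
    have hmo : mo K0 p ≤ mo K p := by
      apply Submodule.finrank_mono
      intro q hq
      rw [mem_mot] at *
      have hcirc := circuit hp K0 A hA hx hy (fun a ha b hb hab h1 h2 => by
        rw [hK0, SimpleGraph.deleteEdges_adj]
        refine ⟨⟨hab, Or.inr ⟨A, by simp, ha, hb⟩⟩, ?_⟩
        rw [Set.mem_singleton_iff, Sym2.eq_iff]
        tauto) hq
      intro a b hab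
      by_cases hc : s(a, b) = s(x, y)
      · rw [Sym2.eq_iff] at hc
        rcases hc with ⟨rfl, rfl⟩ | ⟨rfl, rfl⟩
        · exact hcirc
        · rw [← neg_sub (p b), ← neg_sub (q b), neg_dotProduct_neg]
          exact hcirc
      · exact hq a b (by rw [hK0, SimpleGraph.deleteEdges_adj]; exact ⟨hab, hc⟩)
    have hcard : K0.edgeSet.ncard + 1 = K.edgeSet.ncard := by
      rw [hK0, SimpleGraph.edgeSet_deleteEdges]
      exact Set.ncard_sdiff_singleton_add_one hadj (Set.toFinite _)
    have h3 := mo_le_add (G := K') (G' := K0) p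
    have h4 : (K0.edgeSet \ K'.edgeSet).ncard + K'.edgeSet.ncard = K0.edgeSet.ncard :=
      Set.ncard_sdiff_add_ncard_of_subset (SimpleGraph.edgeSet_subset_edgeSet.2 hle)
        (Set.toFinite _)
    rw [List.length_cons]
    omega

/-- the upper bound for the rank -/
theorem upper {p : V → Fin d → ℝ} (hp : MG p) (G : SimpleGraph V) {L : List (Finset V)}
    (hL : Proper (d + 2) L) :
    d * Fintype.card V + L.length ≤ (cover G L).edgeSet.ncard + mo G p := by
  classical
  have h1 := cover_bot_bound hp L hL
  have hle : cover ⊥ L ≤ cover G L := by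
    rintro a b ⟨hne, h⟩
    exact ⟨hne, h.imp (fun h => absurd h (by simp)) id⟩
  have h3 := mo_le_add (G := cover ⊥ L) (G' := cover G L) p
  have h4 : ((cover G L).edgeSet \ (cover ⊥ L).edgeSet).ncard + (cover ⊥ L).edgeSet.ncard =
      (cover G L).edgeSet.ncard :=
    Set.ncard_sdiff_add_ncard_of_subset (SimpleGraph.edgeSet_subset_edgeSet.2 hle)
      (Set.toFinite _)
  have hle2 : G ≤ cover G L := fun a b h => ⟨h.ne, Or.inl h⟩
  have h5 : mo (cover G L) p ≤ mo G p := mo_anti hle2 p
  omega

/-! ### The lower bound -/

theorem lower_aux {p : V → Fin d → ℝ} (hp : MG p) {H : SimpleGraph V} {π : V → ℕ}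
    (hπ : Function.Injective π)
    (hH : ∀ v, (later H π v).ncard ≤ d ∨
      ((later H π v).ncard = d + 1 ∧ H.IsClique (later H π v))) :
    ∀ (m : ℕ) (U : Finset V), U.card = m → (∀ u ∈ U, ∀ w, π u < π w → w ∈ U) →
    ∀ F : SimpleGraph V, F ≤ H → (∀ a b, F.Adj a b → a ∈ U ∧ b ∈ U) →
    ∃ L : List (Finset V), Proper (d + 2) L ∧ (∀ A ∈ L, A ⊆ U) ∧
      mo F p + (cover F L).edgeSet.ncard ≤ d * Fintype.card V + L.length := by
  classical
  intro m
  induction m with
  | zero =>
    intro U hU _ F _ hF
    refine ⟨[], trivial, by simp, ?_⟩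
    have hFb : F = ⊥ := by
      ext a b
      simp only [SimpleGraph.bot_adj, iff_false]
      intro hab
      have := (hF a b hab).1
      rw [Finset.card_eq_zero.1 hU] at this
      simp at this
    subst hFb
    rw [cover_nil]
    have := mo_le (⊥ : SimpleGraph V) p
    simpa using this
  | succ m ih =>
    intro U hU hup F hFH hF
    have hne : U.Nonempty := by
      rw [← Finset.card_pos, hU]
      omega
    obtain ⟨v, hvU, hvmin⟩ := U.exists_min_image π hne
    have hU'c : (U.erase v).card = m := by rw [card_erase_of_mem hvU, hU]; rfl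
    have hup' : ∀ u ∈ U.erase v, ∀ w, π u < π w → w ∈ U.erase v := by
      intro u hu w huw
      refine mem_erase.2 ⟨?_, hup u (mem_of_mem_erase hu) w huw⟩
      rintro rfl
      exact absurd (hvmin u (mem_of_mem_erase hu)) (by omega)
    have hlt : ∀ u ∈ U, u ≠ v → π v < π u := by
      intro u hu hne
      exact lt_of_le_of_ne (hvmin u hu) (fun h => hne (hπ h).symm)
    set F' := F.deleteIncidenceSet v with hF'
    have hF'H : F' ≤ H := (F.deleteIncidenceSet_le v).trans hFH
    have hF'U : ∀ a b, F'.Adj a b → a ∈ U.erase v ∧ b ∈ U.erase v := by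
      intro a b hab
      rw [hF', SimpleGraph.deleteIncidenceSet_adj] at hab
      exact ⟨mem_erase.2 ⟨hab.2.1, (hF a b hab.1).1⟩, mem_erase.2 ⟨hab.2.2, (hF a b hab.1).2⟩⟩
    set N : Finset V := (F.neighborSet v).toFinset with hN
    have hNmem : ∀ z, z ∈ N ↔ F.Adj v z := by
      intro z
      rw [hN, Set.mem_toFinset, SimpleGraph.mem_neighborSet]
    have hNc : (F.neighborSet v).ncard = N.card := by
      rw [hN, Set.ncard_eq_toFinset_card']
    have hNU : ∀ z ∈ N, z ∈ U.erase v := by
      intro z hz
      have := (hNmem z).1 hz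
      exact mem_erase.2 ⟨this.ne', (hF v z this).2⟩
    have hNl : (N : Set V) ⊆ later H π v := by
      intro z hz
      have hz' := (hNmem z).1 hz
      exact ⟨hFH hz', hlt z (mem_of_mem_erase (hNU z hz)) hz'.ne'⟩
    have hNle : N.card ≤ (later H π v).ncard := by
      rw [← Set.ncard_coe_finset]
      exact Set.ncard_le_ncard hNl (Set.toFinite _)
    have hvN : v ∉ N := fun h => ((hNmem v).1 h).ne rfl
    by_cases hcase : N.card ≤ d
    · -- few neighbours
      obtain ⟨L, hLp, hLU, hL⟩ := ih (U.erase v) hU'c hup' F' hF'H hF'U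
      have hvL : ∀ A ∈ L, v ∉ A := fun A hA hv => (mem_erase.1 (hLU A hA hv)).1 rfl
      refine ⟨L, hLp, fun A hA => (hLU A hA).trans (erase_subset _ _), ?_⟩
      rw [ncard_del (cover F L) v, del_cover F hvL, nbr_cover F hvL, hNc]
      have h1 := ext0 hp F v N hcase (fun z hz => (hNmem z).1 hz)
      rw [← hF'] at h1 ⊢
      omega
    · -- exactly `d + 1` neighbours
      push Not at hcase
      have hlat : (later H π v).ncard = d + 1 ∧ H.IsClique (later H π v) := by
        rcases hH v with h | h
        · omega
        · exact h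
      have hNd : N.card = d + 1 := by omega
      have hNeq : (N : Set V) = later H π v := by
        apply Set.eq_of_subset_of_ncard_le hNl _ (Set.toFinite _)
        rw [Set.ncard_coe_finset]
        omega
      by_cases hcl : ∀ x ∈ N, ∀ y ∈ N, x ≠ y → ∀ q, IsMotion F' p q →
          (p x - p y) ⬝ᵥ (q x - q y) = 0
      · -- the neighbours form a rigid clique in the closure
        set F1 := cover F' [N] with hF1
        have hF1H : F1 ≤ H := by
          rintro a b ⟨hne, h | ⟨A, hA, ha, hb⟩⟩
          · exact hF'H h
          · rw [List.mem_singleton] at hA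
            subst hA
            exact hlat.2 (hNeq ▸ (mem_coe.2 ha)) (hNeq ▸ (mem_coe.2 hb)) hne
        have hF1U : ∀ a b, F1.Adj a b → a ∈ U.erase v ∧ b ∈ U.erase v := by
          rintro a b ⟨hne, h | ⟨A, hA, ha, hb⟩⟩
          · exact hF'U a b h
          · rw [List.mem_singleton] at hA
            subst hA
            exact ⟨hNU a ha, hNU b hb⟩
        have hmo1 : mo F' p ≤ mo F1 p := by
          apply Submodule.finrank_mono
          intro q hq
          rw [mem_mot] at *
          rintro a b ⟨hne, h | ⟨A, hA, ha, hb⟩⟩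
          · exact hq a b h
          · rw [List.mem_singleton] at hA
            subst hA
            exact hcl a ha b hb hne q hq
        obtain ⟨L, hLp, hLU, hL⟩ := ih (U.erase v) hU'c hup' F1 hF1H hF1U
        have hvL : ∀ A ∈ L, v ∉ A := fun A hA hv => (mem_erase.1 (hLU A hA hv)).1 rfl
        have hNne : N.Nonempty := by
          rw [← Finset.card_pos]
          omega
        obtain ⟨z, hz⟩ := hNne
        refine ⟨insert v N :: L, ⟨hLp, by rw [card_insert_of_notMem hvN, hNd], v,
          mem_insert_self _ _, z, mem_insert_of_mem hz, fun h => hvN (h ▸ hz),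
          fun B hB h => hvL B hB h.1⟩, ?_, ?_⟩
        · intro A hA
          rcases List.mem_cons.1 hA with rfl | hA
          · intro a ha
            rcases mem_insert.1 ha with rfl | ha
            · exact hvU
            · exact mem_of_mem_erase (hNU a ha)
          · exact (hLU A hA).trans (erase_subset _ _)
        · have e1 : (cover F (insert v N :: L)).deleteIncidenceSet v = cover F1 L := by
            ext a b
            rw [SimpleGraph.deleteIncidenceSet_adj]
            constructor
            · rintro ⟨⟨hne, h⟩, ha, hb⟩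
              refine ⟨hne, ?_⟩
              rcases h with h | ⟨A, hA, haA, hbA⟩
              · refine Or.inl ⟨hne, Or.inl ?_⟩
                rw [hF', SimpleGraph.deleteIncidenceSet_adj]
                exact ⟨h, ha, hb⟩
              · rcases List.mem_cons.1 hA with rfl | hA
                · exact Or.inl ⟨hne, Or.inr ⟨N, by simp,
                    (mem_insert.1 haA).resolve_left ha, (mem_insert.1 hbA).resolve_left hb⟩⟩
                · exact Or.inr ⟨A, hA, haA, hbA⟩
            · rintro ⟨hne, h⟩
              rcases h with ⟨-, h | ⟨A, hA, haA, hbA⟩⟩ | ⟨A, hA, haA, hbA⟩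
              · rw [hF', SimpleGraph.deleteIncidenceSet_adj] at h
                exact ⟨⟨hne, Or.inl h.1⟩, h.2⟩
              · rw [List.mem_singleton] at hA
                subst hA
                refine ⟨⟨hne, Or.inr ⟨insert v N, by simp, mem_insert_of_mem haA,
                  mem_insert_of_mem hbA⟩⟩, ?_, ?_⟩
                · rintro rfl
                  exact hvN haA
                · rintro rfl
                  exact hvN hbA
              · refine ⟨⟨hne, Or.inr ⟨A, List.mem_cons_of_mem _ hA, haA, hbA⟩⟩, ?_, ?_⟩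
                · rintro rfl
                  exact hvL A hA haA
                · rintro rfl
                  exact hvL A hA hbA
          have e2 : (cover F (insert v N :: L)).neighborSet v = F.neighborSet v := by
            ext z
            constructor
            · rintro ⟨hne, h | ⟨A, hA, h1, h2⟩⟩
              · exact h
              · rcases List.mem_cons.1 hA with rfl | hA
                · exact (hNmem z).1 ((mem_insert.1 h2).resolve_left hne.symm)
                · exact absurd h1 (hvL A hA)
            · exact fun h => ⟨h.ne, Or.inl h⟩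
          rw [ncard_del (cover F (insert v N :: L)) v, e1, e2, hNc, List.length_cons]
          obtain ⟨T, hTN, hTc⟩ := exists_subset_card_eq (s := N) (n := d) (by omega)
          have h1 := ext0 hp F v T (by omega) (fun z hz => (hNmem z).1 (hTN hz))
          rw [← hF'] at h1
          omega
      · -- some pair of neighbours is not in the closure
        push Not at hcl
        obtain ⟨x, hx, y, hy, hxy, q, hq, hqne⟩ := hcl
        obtain ⟨L, hLp, hLU, hL⟩ := ih (U.erase v) hU'c hup' F' hF'H hF'U
        have hvL : ∀ A ∈ L, v ∉ A := fun A hA hv => (mem_erase.1 (hLU A hA hv)).1 rfl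
        refine ⟨L, hLp, fun A hA => (hLU A hA).trans (erase_subset _ _), ?_⟩
        rw [ncard_del (cover F L) v, del_cover F hvL, nbr_cover F hvL, hNc]
        have h1 := ext1 hp F v N hNd (fun z hz => (hNmem z).1 hz) hx hy hxy
        rw [← hF'] at h1 ⊢
        have h2 : mo (F' ⊔ SimpleGraph.edge x y) p < mo F' p := by
          apply Submodule.finrank_lt_finrank_of_lt
          refine lt_of_le_of_ne (mot_anti le_sup_left p) fun heq => hqne ?_
          have h3 : q ∈ Mot (F' ⊔ SimpleGraph.edge x y) p := by
            rw [heq, mem_mot]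
            exact hq
          rw [mem_mot] at h3
          exact h3 x y (Or.inr (by rw [SimpleGraph.edge_adj]; exact ⟨Or.inl ⟨rfl, rfl⟩, hxy⟩))
        omega

theorem lower {p : V → Fin d → ℝ} (hp : MG p) {G : SimpleGraph V} (hG : Elim d G) :
    ∃ L : List (Finset V), Proper (d + 2) L ∧
      mo G p + (cover G L).edgeSet.ncard = d * Fintype.card V + L.length := by
  obtain ⟨H, π, hGH, hπ, hH⟩ := hG
  obtain ⟨L, hL, -, h⟩ := lower_aux hp hπ hH (Finset.univ : Finset V).card Finset.univ rfl
    (fun _ _ _ _ => Finset.mem_univ _) G hGH (fun _ _ _ => ⟨Finset.mem_univ _, Finset.mem_univ _⟩)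
  have h2 := upper hp G hL
  exact ⟨L, hL, by omega⟩

end Pool.Agent.H789R5
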