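import Mathlib
import Pool.Agent.H789R5.RF.Main

/-!
# Tree decompositions give elimination orders
-/

set_option autoImplicit false
set_option linter.unusedSectionVars false

namespace Pool.Agent.H789R5

variable {V : Type}

/-- A tree decomposition of `G` of width at most `k`. The nodes `0, …, m - 1` form a rooted tree in
which the parent `par i` of a node `i > 0` has a smaller number. The bag `B i` of each node has at
most `k + 1` elements, each vertex and each edge is contained in a bag, and the nodes whose bags
contain a given vertex form a subtree: each such node, except the one with the smallest number, has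
its parent among them. -/
structure TreeDec (G : SimpleGraph V) (k m : ℕ) (B : ℕ → Finset V) (par : ℕ → ℕ) : Prop where
  parent_lt : ∀ i, 0 < i → par i < i
  card_le : ∀ i < m, (B i).card ≤ k + 1
  vert : ∀ v, ∃ i, i < m ∧ v ∈ B i
  edge : ∀ u v, G.Adj u v → ∃ i, i < m ∧ u ∈ B i ∧ v ∈ B i
  subtree : ∀ v, ∀ i < m, v ∈ B i → (∃ j < i, v ∈ B j) → v ∈ B (par i)

/-- The treewidth of `G` is at most `k`. -/
def TreewidthLE (k : ℕ) (G : SimpleGraph V) : Prop := ∃ m B par, TreeDec G k m B par

theorem elim_of_treewidth [Fintype V] {d : ℕ} {G : SimpleGraph V} (h : TreewidthLE (d + 1) G) :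
    Elim d G := by
  classical
  obtain ⟨m, B, par, hT⟩ := h
  set top : V → ℕ := fun v => Nat.find (hT.vert v) with htop
  have top_lt : ∀ v, top v < m := fun v => (Nat.find_spec (hT.vert v)).1
  have top_mem : ∀ v, v ∈ B (top v) := fun v => (Nat.find_spec (hT.vert v)).2
  have top_min : ∀ v i, i < m → v ∈ B i → top v ≤ i := fun v i hi hv =>
    Nat.find_min' (hT.vert v) ⟨hi, hv⟩
  set n := Fintype.card V with hn
  set idx : V → ℕ := fun v => (Fintype.equivFin V v : ℕ) with hidx
  have idx_lt : ∀ v, idx v < n := fun v => (Fintype.equivFin V v).2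
  have idx_inj : Function.Injective idx := fun u v h =>
    (Fintype.equivFin V).injective (Fin.ext h)
  have key : ∀ t, t < m → ∀ u v, u ∈ B t → v ∈ B t → top u ≤ top v → u ∈ B (top v) := by
    intro t
    induction t using Nat.strong_induction_on with
    | _ t ih =>
      intro ht u v hu hv huv
      by_cases htv : t = top v
      · rw [← htv]; exact hu
      · have h1 : top v < t := lt_of_le_of_ne (top_min v t ht hv) (Ne.symm htv)
        have h0 : 0 < t := by omega
        have h2 := hT.parent_lt t h0
        exact ih (par t) h2 (by omega) u v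
          (hT.subtree u t ht hu ⟨top u, by omega, top_mem u⟩)
          (hT.subtree v t ht hv ⟨top v, h1, top_mem v⟩) huv
  set π : V → ℕ := fun v => (m - top v) * (n + 1) + idx v with hπ
  have hπle : ∀ u v, π v < π u → top u ≤ top v := by
    intro u v huv
    by_contra hc
    push Not at hc
    have h1 : m - top u + 1 ≤ m - top v := by
      have := top_lt u
      omega
    have h2 := Nat.mul_le_mul_right (n + 1) h1
    have h3 := idx_lt u
    simp only [hπ] at huv
    rw [add_mul, one_mul] at h2
    omega
  refine ⟨{ Adj := fun u v => u ≠ v ∧ ∃ i, i < m ∧ u ∈ B i ∧ v ∈ B i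
            symm := ⟨fun _ _ h => ⟨h.1.symm, h.2.imp fun _ h => ⟨h.1, h.2.2, h.2.1⟩⟩⟩
            loopless := ⟨fun _ h => h.1 rfl⟩ }, π, ?_, ?_, ?_⟩
  · intro u v huv
    exact ⟨huv.ne, hT.edge u v huv⟩
  · intro u v huv
    apply idx_inj
    have h1 : ∀ u, π u % (n + 1) = idx u := fun u =>
      Nat.mul_add_mod_of_lt (Nat.lt_succ_of_lt (idx_lt u))
    rw [← h1 u, ← h1 v, huv]
  · intro v
    set S := later _ π v with hS
    have hsub : S ⊆ ((B (top v)).erase v : Finset V) := by
      rintro u ⟨⟨hne, i, hi, hv, hu⟩, hlt⟩
      rw [Finset.mem_coe, Finset.mem_erase]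
      exact ⟨hne.symm, key i hi u v hu hv (hπle u v hlt)⟩
    have hcard : S.ncard ≤ d + 1 := by
      refine (Set.ncard_le_ncard hsub (Finset.finite_toSet _)).trans ?_
      rw [Set.ncard_coe_finset, Finset.card_erase_of_mem (top_mem v)]
      have := hT.card_le (top v) (top_lt v)
      omega
    by_cases h : S.ncard ≤ d
    · exact Or.inl h
    · refine Or.inr ⟨by omega, ?_⟩
      intro a ha b hb hab
      exact ⟨hab, top v, top_lt v, (Finset.mem_erase.1 (hsub ha)).2,
        (Finset.mem_erase.1 (hsub hb)).2⟩

end Pool.Agent.H789R5
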