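import Mathlib
import Pool.Agent.H789R5.RF.Main
import Pool.Agent.H283R2.DR.Skew

/-!
# The rank of the rigidity matrix and generic rigidity
-/

set_option autoImplicit false
set_option linter.unusedSectionVars false

namespace Pool.Agent.H789R5

open Matrix Finset Pool.Agent.H283R2.DR

variable {V : Type} {d : ℕ}

open Classical in
/-- The row of the edge `uv` of the rigidity matrix at the placement `p`: the vector `p u - p v` in
the `d` columns of `u`, the vector `p v - p u` in the `d` columns of `v`, zeros elsewhere. -/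
noncomputable def row (p : V → Fin d → ℝ) (u v : V) : V × Fin d → ℝ := fun c =>
  if c.1 = u then p u c.2 - p v c.2 else if c.1 = v then p v c.2 - p u c.2 else 0

theorem row_comm (p : V → Fin d → ℝ) (u v : V) : row p u v = row p v u := by
  funext c
  unfold row
  split_ifs with h1 h2 h2
  · rw [← h1, ← h2]
  · rfl
  · rfl
  · rfl

/-- The rigidity matrix of `G` at the placement `p` in `ℝ^d`: one row per edge, `d` columns per
vertex. -/
noncomputable def rigidityMatrix (G : SimpleGraph V) (p : V → Fin d → ℝ) :
    Matrix G.edgeSet (V × Fin d) ℝ :=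
  fun e => Sym2.lift ⟨row p, row_comm p⟩ e.1

variable [Fintype V]

/-- The generic rank of `G` in `ℝ^d`: the largest rank of the rigidity matrix at any placement. -/
noncomputable def genRank (d : ℕ) (G : SimpleGraph V) : ℕ :=
  sSup (Set.range fun p : V → Fin d → ℝ => (rigidityMatrix G p).rank)

theorem row_dot (p q : V → Fin d → ℝ) {u v : V} (huv : u ≠ v) :
    ∑ c : V × Fin d, row p u v c * q c.1 c.2 = (p u - p v) ⬝ᵥ (q u - q v) := by
  classical
  rw [Fintype.sum_prod_type]
  have h1 : ∀ a : V, ∑ i, row p u v (a, i) * q a i =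
      (if a = u then ∑ i, (p u i - p v i) * q u i else 0) +
      (if a = v then - ∑ i, (p u i - p v i) * q v i else 0) := by
    intro a
    unfold row
    by_cases h : a = u
    · subst h
      simp [huv]
    · by_cases h' : a = v
      · subst h'
        simp only [h, if_false, if_true, zero_add, ← sum_neg_distrib]
        exact sum_congr rfl fun i _ => by ring
      · simp [h, h']
  rw [sum_congr rfl fun a _ => h1 a, sum_add_distrib, sum_ite_eq', sum_ite_eq']
  simp only [mem_univ, if_true, dotProduct, Pi.sub_apply, ← sum_neg_distrib, ← sum_add_distrib]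
  exact sum_congr rfl fun i _ => by ring

theorem rank_add_mo (G : SimpleGraph V) (p : V → Fin d → ℝ) :
    (rigidityMatrix G p).rank + mo G p = d * Fintype.card V := by
  classical
  have h1 := LinearMap.finrank_range_add_finrank_ker (rigidityMatrix G p).mulVecLin
  have h2 : Module.finrank ℝ (V × Fin d → ℝ) = d * Fintype.card V := by
    rw [Module.finrank_fintype_fun_eq_card, Fintype.card_prod, Fintype.card_fin, mul_comm]
  have h3 : (LinearMap.ker (rigidityMatrix G p).mulVecLin).map
      (LinearEquiv.curry ℝ ℝ V (Fin d) : (V × Fin d → ℝ) →ₗ[ℝ] (V → Fin d → ℝ)) = Mot G p := by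
    ext q
    rw [mem_mot]
    constructor
    · rintro ⟨q', hq', rfl⟩
      intro u v huv
      rw [← row_dot p _ huv.ne]
      have hq2 : (rigidityMatrix G p) *ᵥ q' = 0 := by
        have := LinearMap.mem_ker.1 hq'
        rwa [Matrix.mulVecLin_apply] at this
      exact congrFun hq2 ⟨s(u, v), huv⟩
    · intro hq
      refine ⟨fun c => q c.1 c.2, ?_, rfl⟩
      show _ ∈ LinearMap.ker _
      rw [LinearMap.mem_ker, Matrix.mulVecLin_apply]
      funext e
      obtain ⟨e, he⟩ := e
      induction e using Sym2.ind with
      | _ u v =>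
        have := hq u v he
        rw [← row_dot p _ (SimpleGraph.Adj.ne he)] at this
        exact this
  have h4 : mo G p = Module.finrank ℝ (LinearMap.ker (rigidityMatrix G p).mulVecLin) := by
    unfold mo
    rw [← h3]
    exact LinearEquiv.finrank_map_eq (LinearEquiv.curry ℝ ℝ V (Fin d)) _
  have h5 : (rigidityMatrix G p).rank =
      Module.finrank ℝ (LinearMap.range (rigidityMatrix G p).mulVecLin) := rfl
  omega

theorem genRank_add {p : V → Fin d → ℝ} (hp : MG p) (G : SimpleGraph V) :
    genRank d G + mo G p = d * Fintype.card V := by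
  rw [← rank_add_mo G p]
  congr 1
  apply IsGreatest.csSup_eq
  refine ⟨⟨p, rfl⟩, ?_⟩
  rintro _ ⟨p', rfl⟩
  have h1 := rank_add_mo G p
  have h2 := rank_add_mo G p'
  have h3 := hp.min G p'
  show (rigidityMatrix G p').rank ≤ _
  omega

/-! ### The trivial motions -/

/-- skew-symmetric matrices are given by their entries above the diagonal -/
noncomputable def skEquiv (d : ℕ) : TA.Sk d ≃ₗ[ℝ] ({x : Fin d × Fin d // x.1 < x.2} → ℝ) where
  toFun A x := (A : Matrix (Fin d) (Fin d) ℝ) x.1.1 x.1.2
  map_add' A B := rfl
  map_smul' c A := rfl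
  invFun c := ⟨Matrix.of fun i j => if h : i < j then c ⟨(i, j), h⟩ else
    if h : j < i then - c ⟨(j, i), h⟩ else 0, by
      show _ = _
      ext i j
      simp only [transpose_apply, of_apply]
      rcases lt_trichotomy i j with h | h | h
      · simp [h, not_lt.2 h.le]
      · subst h; simp
      · simp [h, not_lt.2 h.le]⟩
  left_inv A := by
    apply Subtype.ext
    ext i j
    have hA : ∀ i j, (A : Matrix (Fin d) (Fin d) ℝ) i j = - (A : Matrix (Fin d) (Fin d) ℝ) j i := by
      intro i j
      have h1 : (A : Matrix (Fin d) (Fin d) ℝ)ᵀ = - (A : Matrix (Fin d) (Fin d) ℝ) := A.2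
      have := congrFun (congrFun h1 j) i
      simpa using this
    change (if i < j then (A : Matrix (Fin d) (Fin d) ℝ) i j else
      if j < i then - (A : Matrix (Fin d) (Fin d) ℝ) j i else 0) = _
    rcases lt_trichotomy i j with h | h | h
    · rw [if_pos h]
    · subst h
      have := hA i i
      rw [if_neg (lt_irrefl i), if_neg (lt_irrefl i)]
      linarith
    · rw [if_neg (not_lt.2 h.le), if_pos h]
      exact (hA i j).symm
  right_inv c := by
    funext x
    simp [x.2]

theorem finrank_triv (d : ℕ) :
    Module.finrank ℝ (TA.Sk d × (Fin d → ℝ)) = d * (d + 1) / 2 := by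
  have h1 : Fintype.card {x : Fin d × Fin d // x.1 < x.2} = d * (d - 1) / 2 := by
    rw [Fintype.card_subtype, Finset.card_filter, Fintype.sum_prod_type_right]
    have h2 : ∀ b : Fin d, (∑ a : Fin d, if a < b then 1 else 0) = (b : ℕ) := by
      intro b
      rw [← Finset.card_filter]
      have : (Finset.univ.filter fun a : Fin d => a < b) = Finset.Iio b := by
        ext; simp
      rw [this, Fin.card_Iio]
    rw [Finset.sum_congr rfl fun b _ => h2 b, Fin.sum_univ_eq_sum_range (fun i => i) d,
      Finset.sum_range_id]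
  rw [Module.finrank_prod, (skEquiv d).finrank_eq, Module.finrank_fintype_fun_eq_card, h1,
    Module.finrank_fin_fun]
  rcases d with _ | d
  · rfl
  · have e1 : (d + 1) * (d + 1 + 1) = (d + 1) * d + 2 * (d + 1) := by ring
    rw [e1, Nat.add_sub_cancel, Nat.add_mul_div_left _ _ (by norm_num)]

theorem triv_inj {p : V → Fin d → ℝ} (hp : MG p) (hd : d ≤ Fintype.card V) :
    Function.Injective (TA.triv p) := by
  rintro ⟨A, b⟩ ⟨A', b'⟩ h
  obtain ⟨h1, h2⟩ := triv_unique hp.toGen (S := Finset.univ) (by rw [Finset.card_univ]; exact hd)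
    A.2 A'.2 (b := b) (b' := b') (fun v _ => congrFun h v)
  exact Prod.ext (Subtype.ext h1) h2

theorem genRigid_iff {p : V → Fin d → ℝ} (hp : MG p) (hd : d ≤ Fintype.card V)
    (G : SimpleGraph V) : GenRigid d G ↔ mo G p ≤ d * (d + 1) / 2 := by
  constructor
  · rintro ⟨p', hp'⟩
    refine (hp.min G p').trans ?_
    rw [TA.infRigid_iff] at hp'
    calc mo G p' ≤ Module.finrank ℝ (LinearMap.range (TA.triv p')) := Submodule.finrank_mono hp'
      _ ≤ Module.finrank ℝ (TA.Sk d × (Fin d → ℝ)) := LinearMap.finrank_range_le _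
      _ = _ := finrank_triv d
  · intro h
    refine ⟨p, ?_⟩
    rw [TA.infRigid_iff]
    have h1 : Module.finrank ℝ (LinearMap.range (TA.triv p)) = d * (d + 1) / 2 := by
      rw [LinearMap.finrank_range_of_inj (triv_inj hp hd), finrank_triv]
    have h2 := Submodule.eq_of_le_of_finrank_le (TA.range_triv_le G p)
      (by rw [h1]; exact h)
    exact h2.ge

end Pool.Agent.H789R5
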